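import Pool.Agent.Helper52.KP.StM
import Pool.Agent.Helper31.KP.Hol

/-!
# Project KP, MODULE PEA (peak sections)
-/

set_option autoImplicit false

namespace Pool.Agent.Helper63.KP

open MeasureTheory Filter Pool.Agent.Helper52.KP
open scoped ContDiff ComplexOrder Topology

private theorem cont_ev {m : ℕ} (P : MvPolynomial (Fin m) ℂ) : Continuous (fun z => ev P z) :=
  MvPolynomial.continuous_eval P

private theorem isOpen_U (C : Cone) : IsOpen C.U :=
  isOpen_ne_fun (cont_ev C.Δ) continuous_const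

private theorem measU (C : Cone) : MeasurableSet C.U := (isOpen_U C).measurableSet

private theorem u_pos {C : Cone} (hC : Good C) {z : Fin C.m → ℂ} (hz : z ∈ C.U) : 0 < C.u z := by
  obtain ⟨a, b, ha, hab⟩ := hC.ubd
  exact lt_of_lt_of_le (mul_pos ha (hC.Xpos z hz)) (hab z hz).1

private theorem m_two {C : Cone} (hC : Good C) : 2 ≤ C.m := by
  have := hC.hm
  have := hC.hn
  omega

private theorem cont_u {C : Cone} (hC : Good C) : ContinuousOn C.u C.U := hC.usm.continuousOn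

/-- a measurable extension of `u` -/
private theorem exists_uu {C : Cone} (hC : Good C) :
    ∃ ψ : (Fin C.m → ℂ) → ℝ, Measurable ψ ∧ ∀ z ∈ C.U, ψ z = C.u z := by
  classical
  refine ⟨C.U.piecewise C.u (fun _ => (1 : ℝ)), ?_, ?_⟩
  · exact ContinuousOn.measurable_piecewise (cont_u hC) continuousOn_const (measU C)
  · intro z hz
    exact Set.piecewise_eq_of_mem _ _ _ hz

private theorem measS {C : Cone} (hC : Good C) (T : ℝ) :
    MeasurableSet {z | z ∈ C.U ∧ C.u z < T} := by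
  obtain ⟨ψ, hψm, hψ⟩ := exists_uu hC
  have : {z | z ∈ C.U ∧ C.u z < T} = C.U ∩ {z | ψ z < T} := by
    ext z
    simp only [Set.mem_ofPred_eq, Set.mem_inter_iff]
    constructor
    · rintro ⟨h1, h2⟩
      exact ⟨h1, by rw [hψ z h1]; exact h2⟩
    · rintro ⟨h1, h2⟩
      exact ⟨h1, by rw [← hψ z h1]; exact h2⟩
  rw [this]
  exact (measU C).inter (measurableSet_lt hψm measurable_const)

/-- scaling of integrals of functions of degree zero -/
private theorem key {C : Cone} (hC : Good C) (hSCA : StSCA) (g : (Fin C.m → ℂ) → ENNReal)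
    (hg : Measurable g) (hgh : ∀ z ∈ C.U, ∀ c : ℂ, c ≠ 0 → g (scl C.w c z) = g z)
    (hfin : ∫⁻ z in {z | z ∈ C.U ∧ C.u z < 1}, g z ∂C.nu ≠ ⊤)
    (Φ : ℝ → ENNReal) (hΦ : Measurable Φ) :
    ∫⁻ z in C.U, Φ (C.u z) * g z ∂C.nu =
      (∫⁻ s in Set.Ioi (0 : ℝ), Φ s * ENNReal.ofReal (C.m * s ^ ((C.m : ℝ) - 1))) *
        ∫⁻ z in {z | z ∈ C.U ∧ C.u z < 1}, g z ∂C.nu := by
  obtain ⟨ψ, hψm, hψ⟩ := exists_uu hC
  have hset : {z | z ∈ C.U ∧ ψ z < 1} = {z | z ∈ C.U ∧ C.u z < 1} := by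
    ext z
    simp only [Set.mem_ofPred_eq]
    constructor
    · rintro ⟨h1, h2⟩
      exact ⟨h1, by rw [← hψ z h1]; exact h2⟩
    · rintro ⟨h1, h2⟩
      exact ⟨h1, by rw [hψ z h1]; exact h2⟩
  have h := hSCA C hC 1 0 one_pos (by
      have := m_two hC
      have h2 : (2 : ℝ) ≤ C.m := by exact_mod_cast this
      linarith) ψ g hψm hg (by
      intro z hz
      refine ⟨by rw [hψ z hz]; exact u_pos hC hz, ?_⟩
      intro c hc
      refine ⟨?_, ?_⟩
      · rw [hψ z hz, hψ _ (hC.sclU c hc z hz), hC.uhom z hz c hc, Real.rpow_one]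
      · rw [hgh z hz c hc]; simp) (by rw [hset]; exact hfin) Φ hΦ
  rw [hset] at h
  have h1 : ∫⁻ z in C.U, Φ (C.u z) * g z ∂C.nu = ∫⁻ z in C.U, Φ (ψ z) * g z ∂C.nu := by
    apply setLIntegral_congr_fun (measU C)
    intro z hz
    simp only
    rw [hψ z hz]
  rw [h1, h]
  congr 1
  apply setLIntegral_congr_fun measurableSet_Ioi
  intro s hs
  simp only
  congr 2
  rw [add_zero, div_one]

/-- the one-dimensional integral -/
private theorem one_dim (m : ℕ) (hm : 2 ≤ m) (q : ℕ) :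
    ∫⁻ s in Set.Ioi (0 : ℝ), ENNReal.ofReal (s ^ q * Real.exp (-s)) *
      ENNReal.ofReal (m * s ^ ((m : ℝ) - 1)) = ENNReal.ofReal (m * (q + m - 1).factorial) := by
  have hm2 : (2 : ℝ) ≤ m := by exact_mod_cast hm
  have hq0 : (0 : ℝ) ≤ q := Nat.cast_nonneg q
  have hpos : 0 < (q : ℝ) + m := by linarith
  have h1 : ((q : ℝ) + m) = ((q + m - 1 : ℕ) : ℝ) + 1 := by
    have : q + m = (q + m - 1) + 1 := by omega
    exact_mod_cast this
  rw [← Real.Gamma_nat_eq_factorial, ← h1]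
  rw [Real.Gamma_eq_integral hpos, ← integral_const_mul, ofReal_integral_eq_lintegral_ofReal]
  · apply setLIntegral_congr_fun measurableSet_Ioi
    intro s hs
    have hs' : (0 : ℝ) < s := hs
    simp only
    rw [← ENNReal.ofReal_mul (by positivity)]
    congr 1
    have : s ^ ((q : ℝ) + (m : ℝ) - 1) = s ^ q * s ^ ((m : ℝ) - 1) := by
      rw [← Real.rpow_natCast s q, ← Real.rpow_add hs']
      congr 1
      ring
    rw [this]
    ring
  · exact (Real.GammaIntegral_convergent hpos).const_mul _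
  · refine (ae_restrict_iff' measurableSet_Ioi).2 (Eventually.of_forall ?_)
    intro s hs
    have hs' : (0 : ℝ) < s := hs
    simp only [Pi.zero_apply]
    positivity

private theorem one_dim' (m : ℕ) (hm : 2 ≤ m) {T : ℝ} (hT : 0 < T) :
    ∫⁻ s in Set.Ioi (0 : ℝ), (Set.Iio T).indicator (fun _ => (1 : ENNReal)) s *
      ENNReal.ofReal (m * s ^ ((m : ℝ) - 1)) = ENNReal.ofReal (T ^ m) := by
  have hm2 : (2 : ℝ) ≤ m := by exact_mod_cast hm
  have h1 : ∀ s : ℝ, (Set.Iio T).indicator (fun _ => (1 : ENNReal)) s *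
      ENNReal.ofReal (m * s ^ ((m : ℝ) - 1)) =
      (Set.Iio T).indicator (fun s => ENNReal.ofReal (m * s ^ ((m : ℝ) - 1))) s := by
    intro s
    by_cases hs : s ∈ Set.Iio T
    · rw [Set.indicator_of_mem hs, Set.indicator_of_mem hs, one_mul]
    · rw [Set.indicator_of_notMem hs, Set.indicator_of_notMem hs, zero_mul]
  simp_rw [h1]
  rw [setLIntegral_indicator measurableSet_Iio]
  have h2 : Set.Iio T ∩ Set.Ioi (0 : ℝ) = Set.Ioo 0 T := by
    ext s
    simp only [Set.mem_inter_iff, Set.mem_Iio, Set.mem_Ioi, Set.mem_Ioo]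
    tauto
  rw [h2]
  have h3 : ∫ s in (0 : ℝ)..T, (m : ℝ) * s ^ ((m : ℝ) - 1) = T ^ m := by
    rw [intervalIntegral.integral_const_mul, integral_rpow (Or.inl (by linarith))]
    rw [sub_add_cancel, Real.zero_rpow (by linarith), sub_zero, Real.rpow_natCast]
    field_simp
  rw [← h3, intervalIntegral.integral_of_le hT.le,
    integral_Ioc_eq_integral_Ioo, ofReal_integral_eq_lintegral_ofReal]
  · have h4 : IntervalIntegrable (fun s : ℝ => (m : ℝ) * s ^ ((m : ℝ) - 1)) volume 0 T :=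
      (intervalIntegral.intervalIntegrable_rpow' (by linarith)).const_mul _
    exact (h4.1).mono_set Set.Ioo_subset_Ioc_self
  · refine (ae_restrict_iff' measurableSet_Ioo).2 (Eventually.of_forall ?_)
    intro s hs
    have hs' : (0 : ℝ) < s := hs.1
    simp only [Pi.zero_apply]
    positivity

private theorem lint_nu {C : Cone} {g : (Fin C.m → ℂ) → ENNReal} {S : Set (Fin C.m → ℂ)}
    (hS : MeasurableSet S) (hg : AEMeasurable g (volume.restrict S)) :
    ∫⁻ z in S, g z ∂C.nu = ∫⁻ z in S, g z * ENNReal.ofReal (‖ev C.J z‖ ^ 2) := by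
  unfold Cone.nu
  have hJm : Measurable (fun z : Fin C.m → ℂ => ENNReal.ofReal (‖ev C.J z‖ ^ 2)) :=
    (((cont_ev C.J).norm.pow 2).measurable).ennreal_ofReal
  rw [restrict_withDensity hS]
  rw [lintegral_withDensity_eq_lintegral_mul₀ hJm.aemeasurable]
  · apply setLIntegral_congr_fun hS
    intro z hz
    simp only [Pi.mul_apply]
    rw [mul_comm]
  · exact hg

/-- the local data -/
structure Dat (C : Cone) (W W' : Set (Fin C.m → ℂ)) (χ : (Fin C.m → ℂ) → ℝ)
    (F : (Fin C.m → ℂ) → ℂ) (B c : ℝ) : Prop where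
  oW : IsOpen W
  oW' : IsOpen W'
  sub : W' ⊆ W
  subU : W ⊆ C.U
  conW : ∀ z ∈ W, ∀ a : ℂ, a ≠ 0 → scl C.w a z ∈ W
  conW' : ∀ z ∈ W', ∀ a : ℂ, a ≠ 0 → scl C.w a z ∈ W'
  χs : ContDiffOn ℝ ∞ χ C.U
  χb : ∀ z ∈ C.U, 0 ≤ χ z ∧ χ z ≤ 1
  χh : ∀ z ∈ C.U, ∀ a : ℂ, a ≠ 0 → χ (scl C.w a z) = χ z
  χ1 : ∀ z ∈ W', χ z = 1
  χ0 : ∀ z ∈ C.U, z ∉ W → ∀ᶠ x in 𝓝 z, χ x = 0
  Fd : DifferentiableOn ℂ F W
  Fh : ∀ z ∈ W, ∀ a : ℂ, a ≠ 0 → F (scl C.w a z) = a * F z
  Fu : ∀ z ∈ W, ‖F z‖ ≤ C.u z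
  c0 : 0 < c
  c1 : c < 1
  Fc : ∀ z ∈ W, z ∉ W' → ‖F z‖ ≤ c * C.u z
  B0 : 0 < B
  χd : ∀ z ∈ C.U, ∀ ξ, ‖∑ j, db j (cf χ) z * star (ξ j)‖ ^ 2 * C.u z ≤ B * hf (hes C.u z) ξ

open Classical in
/-- the cut off function -/
noncomputable def GG (C : Cone) (W : Set (Fin C.m → ℂ)) (χ : (Fin C.m → ℂ) → ℝ)
    (F : (Fin C.m → ℂ) → ℂ) (j : ℕ) (z : Fin C.m → ℂ) : ℂ :=
  if z ∈ W then (χ z : ℂ) * (F z ^ j * ev C.J z) else 0

open Classical in
/-- the bound of its derivative -/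
noncomputable def kap (C : Cone) (W W' : Set (Fin C.m → ℂ))
    (F : (Fin C.m → ℂ) → ℂ) (B : ℝ) (j : ℕ) (z : Fin C.m → ℂ) : ℝ :=
  if z ∈ W ∧ z ∉ W' then B * ‖F z‖ ^ (2 * j) * ‖ev C.J z‖ ^ 2 / C.u z else 0

private theorem scl_inv {m : ℕ} (w : Fin m → ℕ) {c : ℂ} (hc : c ≠ 0) (z : Fin m → ℂ) :
    scl w c⁻¹ (scl w c z) = z := by
  funext j
  simp only [scl]
  rw [← mul_assoc, ← mul_pow, inv_mul_cancel₀ hc, one_pow, one_mul]

section dat

variable {C : Cone} {W W' : Set (Fin C.m → ℂ)} {χ : (Fin C.m → ℂ) → ℝ}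
  {F : (Fin C.m → ℂ) → ℂ} {B c : ℝ}

private theorem mem_scl {S : Set (Fin C.m → ℂ)}
    (hS : ∀ z ∈ S, ∀ a : ℂ, a ≠ 0 → scl C.w a z ∈ S) {a : ℂ} (ha : a ≠ 0) (z : Fin C.m → ℂ) :
    scl C.w a z ∈ S ↔ z ∈ S := by
  constructor
  · intro h
    have := hS _ h a⁻¹ (inv_ne_zero ha)
    rwa [scl_inv _ ha] at this
  · intro h
    exact hS z h a ha

private theorem GG_eqW (D : Dat C W W' χ F B c) (j : ℕ) {z : Fin C.m → ℂ} (hz : z ∈ W) :
    GG C W χ F j =ᶠ[𝓝 z] fun z => cf χ z * (F z ^ j * ev C.J z) := by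
  filter_upwards [D.oW.mem_nhds hz] with x hx
  simp only [GG, if_pos hx, cf]

private theorem GG_eqW' (D : Dat C W W' χ F B c) (j : ℕ) {z : Fin C.m → ℂ} (hz : z ∈ W') :
    GG C W χ F j =ᶠ[𝓝 z] fun z => F z ^ j * ev C.J z := by
  filter_upwards [D.oW'.mem_nhds hz] with x hx
  simp only [GG, if_pos (D.sub hx), D.χ1 x hx, Complex.ofReal_one, one_mul]

private theorem GG_eq0 (D : Dat C W W' χ F B c) (j : ℕ) {z : Fin C.m → ℂ} (hz : z ∈ C.U)
    (hz' : z ∉ W) : GG C W χ F j =ᶠ[𝓝 z] fun _ => 0 := by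
  filter_upwards [D.χ0 z hz hz'] with x hx
  simp [GG, hx]

private theorem ev_dif (P : MvPolynomial (Fin C.m) ℂ) : Differentiable ℂ (fun z => ev P z) := by
  induction P using MvPolynomial.induction_on with
  | C a => simp [ev]
  | add p q hp hq =>
    simp only [ev, map_add]
    exact hp.add hq
  | mul_X p i hp =>
    have h2 : Differentiable ℂ (fun z : Fin C.m → ℂ => z i) :=
      differentiable_pi.1 differentiable_id i
    simp only [ev, map_mul, MvPolynomial.eval_X]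
    exact hp.mul h2

private theorem FJ_dif (D : Dat C W W' χ F B c) (j : ℕ) :
    DifferentiableOn ℂ (fun z => F z ^ j * ev C.J z) W :=
  (D.Fd.pow j).mul (ev_dif C.J).differentiableOn

private theorem GG_smooth (D : Dat C W W' χ F B c) (j : ℕ) : ContDiffOn ℝ ∞ (GG C W χ F j) C.U := by
  intro z hz
  refine ContDiffAt.contDiffWithinAt ?_
  by_cases hzW : z ∈ W
  · refine ContDiffAt.congr_of_eventuallyEq ?_ (GG_eqW D j hzW)
    have h1 : ContDiffAt ℝ ∞ (cf χ) z := by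
      have h := D.χs.contDiffAt ((isOpen_U C).mem_nhds hz)
      exact Complex.ofRealCLM.contDiff.contDiffAt.comp z h
    have h2 : ContDiffAt ℝ ∞ (fun z => F z ^ j * ev C.J z) z :=
      (Pool.Agent.Helper31.KP.Hol.contDiffOn_real D.oW (FJ_dif D j)).contDiffAt
        (D.oW.mem_nhds hzW)
    exact h1.mul h2
  · exact contDiffAt_const.congr_of_eventuallyEq (GG_eq0 D j hz hzW)

private theorem GG_hom (hC : Good C) (D : Dat C W W' χ F B c) (j : ℕ) (a : ℂ) (ha : a ≠ 0)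
    (z : Fin C.m → ℂ) (hz : z ∈ C.U) :
    GG C W χ F j (scl C.w a z) = a ^ (j + C.jd) * GG C W χ F j z := by
  by_cases hzW : z ∈ W
  · have h1 := (mem_scl D.conW ha z).2 hzW
    simp only [GG, if_pos hzW, if_pos h1]
    rw [D.χh z hz a ha, D.Fh z hzW a ha, hC.Jhom]
    ring
  · have h1 := fun h => hzW ((mem_scl D.conW ha z).1 h)
    simp only [GG, if_neg hzW, if_neg h1, mul_zero]

private theorem GG_le (hC : Good C) (D : Dat C W W' χ F B c) (j : ℕ) (z : Fin C.m → ℂ)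
    (hz : z ∈ C.U) : ‖GG C W χ F j z‖ ≤ C.u z ^ j * ‖ev C.J z‖ := by
  have hu := u_pos hC hz
  by_cases hzW : z ∈ W
  · simp only [GG, if_pos hzW]
    rw [norm_mul, norm_mul, norm_pow, Complex.norm_real, Real.norm_of_nonneg (D.χb z hz).1]
    have h1 := (D.χb z hz).2
    have h2 : ‖F z‖ ^ j ≤ C.u z ^ j := pow_le_pow_left₀ (norm_nonneg _) (D.Fu z hzW) j
    calc χ z * (‖F z‖ ^ j * ‖ev C.J z‖) ≤ 1 * (C.u z ^ j * ‖ev C.J z‖) := by
          gcongr
      _ = _ := one_mul _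
  · simp only [GG, if_neg hzW, norm_zero]
    positivity

private theorem kap_nn (hC : Good C) (D : Dat C W W' χ F B c) (j : ℕ) (z : Fin C.m → ℂ) :
    0 ≤ kap C W W' F B j z := by
  unfold kap
  split_ifs with h
  · have := u_pos hC (D.subU h.1)
    have := D.B0
    positivity
  · exact le_rfl

private theorem db_congr {m : ℕ} {f g : (Fin m → ℂ) → ℂ} {z : Fin m → ℂ} (h : f =ᶠ[𝓝 z] g)
    (k : Fin m) : db k f z = db k g z := by
  unfold db
  rw [h.fderiv_eq]

private theorem GG_db (hC : Good C) (hCAL : StCAL) (D : Dat C W W' χ F B c) (j : ℕ)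
    (z : Fin C.m → ℂ) (hz : z ∈ C.U) (ξ : Fin C.m → ℂ) :
    ‖∑ k, db k (GG C W χ F j) z * star (ξ k)‖ ^ 2 ≤ kap C W W' F B j z * hf (hes C.u z) ξ := by
  by_cases hzW : z ∈ W
  · by_cases hzW' : z ∈ W'
    · have h1 : ∀ k, db k (GG C W χ F j) z = 0 := by
        intro k
        rw [db_congr (GG_eqW' D j hzW') k]
        exact ((hCAL C.m k k (fun z => F z ^ j * ev C.J z) (fun z => F z ^ j * ev C.J z) z).2.2.1
          ((FJ_dif D j).differentiableAt (D.oW.mem_nhds hzW))).1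
      have h2 : kap C W W' F B j z = 0 := by
        unfold kap
        rw [if_neg]
        exact fun h => h.2 hzW'
      simp [h1, h2]
    · have hu := u_pos hC hz
      have h1 : ∀ k, db k (GG C W χ F j) z = (F z ^ j * ev C.J z) * db k (cf χ) z := by
        intro k
        rw [db_congr (GG_eqW D j hzW) k]
        have h3 : DifferentiableAt ℂ (fun z => F z ^ j * ev C.J z) z :=
          (FJ_dif D j).differentiableAt (D.oW.mem_nhds hzW)
        have h4 : DifferentiableAt ℝ (cf χ) z := by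
          have h := D.χs.contDiffAt ((isOpen_U C).mem_nhds hz)
          have h5 : ContDiffAt ℝ ∞ (cf χ) z := Complex.ofRealCLM.contDiff.contDiffAt.comp z h
          exact h5.differentiableAt (by simp)
        have h5 := ((hCAL C.m k k (cf χ) (fun z => F z ^ j * ev C.J z) z).1 h4
          (h3.restrictScalars ℝ)).2.2.2.1
        rw [h5, ((hCAL C.m k k (fun z => F z ^ j * ev C.J z) (fun z => F z ^ j * ev C.J z) z).2.2.1
          h3).1]
        ring
      have h2 : kap C W W' F B j z = B * ‖F z‖ ^ (2 * j) * ‖ev C.J z‖ ^ 2 / C.u z := by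
        unfold kap
        rw [if_pos ⟨hzW, hzW'⟩]
      have h3 : ∑ k, db k (GG C W χ F j) z * star (ξ k) =
          (F z ^ j * ev C.J z) * ∑ k, db k (cf χ) z * star (ξ k) := by
        rw [Finset.mul_sum]
        refine Finset.sum_congr rfl fun k _ => ?_
        rw [h1, mul_assoc]
      rw [h3, h2, norm_mul, norm_mul, norm_pow]
      have h4 := D.χd z hz ξ
      have h5 : ‖∑ k, db k (cf χ) z * star (ξ k)‖ ^ 2 ≤ B * hf (hes C.u z) ξ / C.u z := by
        rw [le_div_iff₀ hu]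
        exact h4
      calc (‖F z‖ ^ j * ‖ev C.J z‖ * ‖∑ k, db k (cf χ) z * star (ξ k)‖) ^ 2 =
          (‖F z‖ ^ (2 * j) * ‖ev C.J z‖ ^ 2) * ‖∑ k, db k (cf χ) z * star (ξ k)‖ ^ 2 := by
            rw [mul_pow, mul_pow, ← pow_mul, mul_comm j 2]
        _ ≤ (‖F z‖ ^ (2 * j) * ‖ev C.J z‖ ^ 2) * (B * hf (hes C.u z) ξ / C.u z) := by
            gcongr
        _ = _ := by ring
  · have h1 : ∀ k, db k (GG C W χ F j) z = 0 := by
      intro k
      rw [db_congr (GG_eq0 D j hz hzW) k]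
      simp [db]
    have h2 : kap C W W' F B j z = 0 := by
      unfold kap
      rw [if_neg]
      exact fun h => hzW h.1
    simp [h1, h2]

private theorem kap_le (hC : Good C) (D : Dat C W W' χ F B c) {j : ℕ} (hj : 1 ≤ j)
    (z : Fin C.m → ℂ) (hz : z ∈ C.U) :
    kap C W W' F B j z ≤ B * c ^ (2 * j) * (C.u z ^ (2 * j - 1) * ‖ev C.J z‖ ^ 2) := by
  have hu := u_pos hC hz
  have hB := D.B0
  have hc := D.c0
  unfold kap
  split_ifs with h
  · have h1 : ‖F z‖ ^ (2 * j) ≤ (c * C.u z) ^ (2 * j) :=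
      pow_le_pow_left₀ (norm_nonneg _) (D.Fc z h.1 h.2) _
    have h2 : C.u z ^ (2 * j) = C.u z ^ (2 * j - 1) * C.u z := by
      rw [← pow_succ]
      congr 1
      omega
    calc B * ‖F z‖ ^ (2 * j) * ‖ev C.J z‖ ^ 2 / C.u z ≤
        B * (c * C.u z) ^ (2 * j) * ‖ev C.J z‖ ^ 2 / C.u z := by gcongr
      _ = _ := by
        rw [mul_pow, h2]
        field_simp
  · positivity

private theorem kap_meas (hC : Good C) (D : Dat C W W' χ F B c) (j : ℕ) :
    AEStronglyMeasurable (fun z => kap C W W' F B j z * Real.exp (-C.u z))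
      (volume.restrict C.U) := by
  have hS : MeasurableSet (W \ W') := D.oW.measurableSet.diff D.oW'.measurableSet
  have h1 : (fun z => kap C W W' F B j z * Real.exp (-C.u z)) =
      (W \ W').indicator (fun z => B * ‖F z‖ ^ (2 * j) * ‖ev C.J z‖ ^ 2 / C.u z *
        Real.exp (-C.u z)) := by
    funext z
    unfold kap
    by_cases h : z ∈ W \ W'
    · rw [Set.indicator_of_mem h, if_pos (show z ∈ W ∧ z ∉ W' from ⟨h.1, h.2⟩)]
    · rw [Set.indicator_of_notMem h, if_neg (show ¬ (z ∈ W ∧ z ∉ W') from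
        fun h' => h ⟨h'.1, h'.2⟩), zero_mul]
  rw [h1, aestronglyMeasurable_indicator_iff hS, Measure.restrict_restrict hS]
  refine ContinuousOn.aestronglyMeasurable ?_ (hS.inter (measU C))
  have hFc : ContinuousOn F (W \ W' ∩ C.U) := D.Fd.continuousOn.mono fun z hz => hz.1.1
  have huc : ContinuousOn C.u (W \ W' ∩ C.U) := (cont_u hC).mono Set.inter_subset_right
  refine ContinuousOn.mul (ContinuousOn.div ?_ huc fun z hz => (u_pos hC hz.2).ne')
    (Real.continuous_exp.comp_continuousOn huc.neg)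
  exact (continuousOn_const.mul (hFc.norm.pow _)).mul ((cont_ev C.J).norm.pow 2).continuousOn

private theorem kap_int (hC : Good C) (hMOM : StMOM) (D : Dat C W W' χ F B c) {j : ℕ}
    (hj : 1 ≤ j) :
    IntegrableOn (fun z => kap C W W' F B j z * Real.exp (-C.u z)) C.U ∧
    ∫ z in C.U, kap C W W' F B j z * Real.exp (-C.u z) ≤
      B * (C.m * (C.rd * (Real.pi / 2) ^ C.m / C.m.factorial)) * c ^ (2 * j) *
        (2 * j + C.m - 1).factorial := by
  have hm := m_two hC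
  have hB := D.B0
  have hc := D.c0
  obtain ⟨i1, e1⟩ := (hMOM C hC).1 (2 * j - 1)
  have hle : ∀ z ∈ C.U, kap C W W' F B j z * Real.exp (-C.u z) ≤
      B * c ^ (2 * j) * (C.u z ^ (2 * j - 1) * Real.exp (-C.u z) * ‖ev C.J z‖ ^ 2) := by
    intro z hz
    calc _ ≤ B * c ^ (2 * j) * (C.u z ^ (2 * j - 1) * ‖ev C.J z‖ ^ 2) * Real.exp (-C.u z) :=
          mul_le_mul_of_nonneg_right (kap_le hC D hj z hz) (Real.exp_pos _).le
      _ = _ := by ring
  have hint : IntegrableOn (fun z => kap C W W' F B j z * Real.exp (-C.u z)) C.U := by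
    refine Integrable.mono' (i1.const_mul (B * c ^ (2 * j))) (kap_meas hC D j) ?_
    refine (ae_restrict_iff' (measU C)).2 (Eventually.of_forall fun z hz => ?_)
    rw [Real.norm_of_nonneg (mul_nonneg (kap_nn hC D j z) (Real.exp_pos _).le)]
    exact hle z hz
  refine ⟨hint, ?_⟩
  calc ∫ z in C.U, kap C W W' F B j z * Real.exp (-C.u z) ≤
      ∫ z in C.U, B * c ^ (2 * j) * (C.u z ^ (2 * j - 1) * Real.exp (-C.u z) *
        ‖ev C.J z‖ ^ 2) := setIntegral_mono_on hint (i1.const_mul _) (measU C) hle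
    _ = B * c ^ (2 * j) * (C.m * (2 * j - 1 + C.m - 1).factorial *
        (C.rd * (Real.pi / 2) ^ C.m / C.m.factorial)) := by
        rw [integral_const_mul, e1]
    _ ≤ B * c ^ (2 * j) * (C.m * (2 * j + C.m - 1).factorial *
        (C.rd * (Real.pi / 2) ^ C.m / C.m.factorial)) := by
        have h5 : ((2 * j - 1 + C.m - 1).factorial : ℝ) ≤ (2 * j + C.m - 1).factorial := by
          exact_mod_cast Nat.factorial_le (by omega)
        gcongr
    _ = _ := by ring

private theorem GG_L2 (hC : Good C) (hMOM : StMOM) (D : Dat C W W' χ F B c) (j : ℕ) :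
    L2 C.U C.u (GG C W χ F j) := by
  have hc := (GG_smooth D j).continuousOn
  refine ⟨hc.aestronglyMeasurable (measU C), ?_⟩
  have i1 := ((hMOM C hC).1 (2 * j)).1
  refine Integrable.mono' i1 (((hc.norm.pow 2).mul
    (Real.continuous_exp.comp_continuousOn (cont_u hC).neg)).aestronglyMeasurable (measU C)) ?_
  refine (ae_restrict_iff' (measU C)).2 (Eventually.of_forall fun z hz => ?_)
  rw [Real.norm_of_nonneg (by positivity)]
  have h1 := pow_le_pow_left₀ (norm_nonneg _) (GG_le hC D j z hz) 2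
  calc _ ≤ (C.u z ^ j * ‖ev C.J z‖) ^ 2 * Real.exp (-C.u z) :=
        mul_le_mul_of_nonneg_right h1 (Real.exp_pos _).le
    _ = _ := by
        rw [mul_pow, ← pow_mul, mul_comm j 2]
        ring

private theorem nrm_GG (hC : Good C) (hSCA : StSCA) (hMOM : StMOM) (D : Dat C W W' χ F B c)
    (j : ℕ) {A : ℝ} (hA : 0 ≤ A)
    (hlap : ∫⁻ z in {z | z ∈ W ∧ C.u z < 1}, ENNReal.ofReal ((‖F z‖ / C.u z) ^ (2 * j)) ∂C.nu ≤
      ENNReal.ofReal A) :
    nrm C.U C.u (GG C W χ F j) ≤ C.m * (2 * j + C.m - 1).factorial * A := by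
  classical
  have hm := m_two hC
  set g : (Fin C.m → ℂ) → ENNReal :=
    W.piecewise (fun z => ENNReal.ofReal ((‖F z‖ / C.u z) ^ (2 * j))) 0 with hgdef
  have hgW : ∀ z ∈ W, g z = ENNReal.ofReal ((‖F z‖ / C.u z) ^ (2 * j)) := fun z hz =>
    Set.piecewise_eq_of_mem _ _ _ hz
  have hg0 : ∀ z, z ∉ W → g z = 0 := fun z hz => Set.piecewise_eq_of_notMem _ _ _ hz
  have hc1 : ContinuousOn (fun z => ENNReal.ofReal ((‖F z‖ / C.u z) ^ (2 * j))) W := by
    refine ENNReal.continuous_ofReal.comp_continuousOn (ContinuousOn.pow ?_ _)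
    exact D.Fd.continuousOn.norm.div ((cont_u hC).mono D.subU)
      fun z hz => (u_pos hC (D.subU hz)).ne'
  have hg : Measurable g := ContinuousOn.measurable_piecewise hc1 continuousOn_const
    D.oW.measurableSet
  have hgh : ∀ z ∈ C.U, ∀ c : ℂ, c ≠ 0 → g (scl C.w c z) = g z := by
    intro z hz a ha
    by_cases h : z ∈ W
    · rw [hgW z h, hgW _ (D.conW z h a ha), D.Fh z h a ha, hC.uhom z hz a ha, norm_mul]
      have := norm_pos_iff.2 ha
      rw [mul_div_mul_left _ _ this.ne']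
    · rw [hg0 z h, hg0 _ fun h' => h ((mem_scl D.conW ha z).1 h')]
  have hI : ∫⁻ z in {z | z ∈ C.U ∧ C.u z < 1}, g z ∂C.nu ≤ ENNReal.ofReal A := by
    refine le_trans (le_of_eq ?_) hlap
    have h1 : g = W.indicator (fun z => ENNReal.ofReal ((‖F z‖ / C.u z) ^ (2 * j))) := by
      funext z
      by_cases h : z ∈ W
      · rw [hgW z h, Set.indicator_of_mem h]
      · rw [hg0 z h, Set.indicator_of_notMem h]
    rw [h1, setLIntegral_indicator D.oW.measurableSet]
    congr 2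
    ext z
    simp only [Set.mem_inter_iff, Set.mem_ofPred_eq]
    constructor
    · rintro ⟨h1, _, h2⟩
      exact ⟨h1, h2⟩
    · rintro ⟨h1, h2⟩
      exact ⟨h1, D.subU h1, h2⟩
  have hk := key hC hSCA g hg hgh (hI.trans_lt ENNReal.ofReal_lt_top).ne
    (fun s => ENNReal.ofReal (s ^ (2 * j) * Real.exp (-s))) (by fun_prop)
  rw [one_dim C.m hm (2 * j)] at hk
  have hae : AEMeasurable (fun z => ENNReal.ofReal (C.u z ^ (2 * j) * Real.exp (-C.u z)) * g z)
      (volume.restrict C.U) := by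
    refine AEMeasurable.mul ?_ hg.aemeasurable
    exact ((((cont_u hC).pow _).mul (Real.continuous_exp.comp_continuousOn
      (cont_u hC).neg)).aemeasurable (measU C)).ennreal_ofReal
  rw [lint_nu (measU C) hae] at hk
  have hL := GG_L2 hC hMOM D j
  have h1 : ENNReal.ofReal (nrm C.U C.u (GG C W χ F j)) ≤
      ENNReal.ofReal (C.m * (2 * j + C.m - 1).factorial * A) := by
    unfold nrm
    rw [ofReal_integral_eq_lintegral_ofReal hL.2 (Eventually.of_forall fun z => by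
      simp only [Pi.zero_apply]
      positivity)]
    calc ∫⁻ z in C.U, ENNReal.ofReal (‖GG C W χ F j z‖ ^ 2 * Real.exp (-C.u z)) ≤
        ∫⁻ z in C.U, ENNReal.ofReal (C.u z ^ (2 * j) * Real.exp (-C.u z)) * g z *
          ENNReal.ofReal (‖ev C.J z‖ ^ 2) := by
          refine setLIntegral_mono' (measU C) fun z hz => ?_
          have hu := u_pos hC hz
          by_cases h : z ∈ W
          · rw [hgW z h, ← ENNReal.ofReal_mul (by positivity), ← ENNReal.ofReal_mul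
              (by positivity)]
            refine ENNReal.ofReal_le_ofReal ?_
            have h2 : ‖GG C W χ F j z‖ ^ 2 ≤ ‖F z‖ ^ (2 * j) * ‖ev C.J z‖ ^ 2 := by
              simp only [GG, if_pos h]
              rw [norm_mul, norm_mul, norm_pow, Complex.norm_real,
                Real.norm_of_nonneg (D.χb z hz).1]
              have h3 := (D.χb z hz).1
              have h4 := (D.χb z hz).2
              calc (χ z * (‖F z‖ ^ j * ‖ev C.J z‖)) ^ 2 ≤ (1 * (‖F z‖ ^ j * ‖ev C.J z‖)) ^ 2 := by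
                    gcongr
                _ = _ := by rw [one_mul, mul_pow, ← pow_mul, mul_comm j 2]
            calc _ ≤ ‖F z‖ ^ (2 * j) * ‖ev C.J z‖ ^ 2 * Real.exp (-C.u z) :=
                  mul_le_mul_of_nonneg_right h2 (Real.exp_pos _).le
              _ = _ := by
                  rw [div_pow]
                  field_simp
          · simp [GG, h]
      _ = ENNReal.ofReal (C.m * (2 * j + C.m - 1).factorial) *
          ∫⁻ z in {z | z ∈ C.U ∧ C.u z < 1}, g z ∂C.nu := hk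
      _ ≤ ENNReal.ofReal (C.m * (2 * j + C.m - 1).factorial) * ENNReal.ofReal A := by gcongr
      _ = _ := by rw [← ENNReal.ofReal_mul (by positivity)]
  exact (ENNReal.ofReal_le_ofReal_iff (by positivity)).1 h1

private theorem e_bound (hC : Good C) (hSCA : StSCA) (hVOL : StVOL)
    (D : Dat C W W' χ F B c) (j : ℕ) {s : MvPolynomial (Fin C.m) ℂ} (hs : s ∈ C.R j) {δ : ℝ}
    (hL : L2 C.U C.u (fun z => GG C W χ F j z - ev s z * ev C.J z))
    (hδ : nrm C.U C.u (fun z => GG C W χ F j z - ev s z * ev C.J z) ≤ δ) {T : ℝ} (hT : 0 < T) :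
    ∫⁻ z in {z | z ∈ W' ∧ C.u z < T}, ENNReal.ofReal (‖F z ^ j - ev s z‖ ^ 2) *
      ENNReal.ofReal (‖ev C.J z‖ ^ 2) ≤
      ENNReal.ofReal (T ^ (2 * j) * (T ^ C.m * (δ / (C.m * (2 * j + C.m - 1).factorial)))) := by
  classical
  have hm := m_two hC
  have hδ0 : 0 ≤ δ := le_trans (integral_nonneg fun z => by positivity) hδ
  set h : (Fin C.m → ℂ) → ℝ := fun z => ‖F z ^ j - ev s z‖ ^ 2 / C.u z ^ (2 * j) with hdef
  set g : (Fin C.m → ℂ) → ENNReal := W'.piecewise (fun z => ENNReal.ofReal (h z)) 0 with hgdef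
  have hgW : ∀ z ∈ W', g z = ENNReal.ofReal (h z) := fun z hz =>
    Set.piecewise_eq_of_mem _ _ _ hz
  have hg0 : ∀ z, z ∉ W' → g z = 0 := fun z hz => Set.piecewise_eq_of_notMem _ _ _ hz
  have hU' : W' ⊆ C.U := D.sub.trans D.subU
  have hc1 : ContinuousOn (fun z => ENNReal.ofReal (h z)) W' := by
    refine ENNReal.continuous_ofReal.comp_continuousOn ?_
    have hFc : ContinuousOn F W' := D.Fd.continuousOn.mono D.sub
    exact (((hFc.pow j).sub (cont_ev s).continuousOn).norm.pow 2).div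
      (((cont_u hC).mono hU').pow _) fun z hz => (pow_pos (u_pos hC (hU' hz)) _).ne'
  have hg : Measurable g := ContinuousOn.measurable_piecewise hc1 continuousOn_const
    D.oW'.measurableSet
  have hgh : ∀ z ∈ C.U, ∀ c : ℂ, c ≠ 0 → g (scl C.w c z) = g z := by
    intro z hz a ha
    by_cases h' : z ∈ W'
    · rw [hgW z h', hgW _ (D.conW' z h' a ha)]
      simp only [hdef]
      rw [D.Fh z (D.sub h') a ha, hC.uhom z hz a ha, hC.hom j s hs a z, mul_pow, ← mul_sub,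
        norm_mul, norm_pow, mul_pow, mul_pow, ← pow_mul, mul_comm j 2]
      have := norm_pos_iff.2 ha
      rw [mul_div_mul_left _ _ (pow_pos this _).ne']
    · rw [hg0 z h', hg0 _ fun h'' => h' ((mem_scl D.conW' ha z).1 h'')]
  have hfin : ∫⁻ z in {z | z ∈ C.U ∧ C.u z < 1}, g z ∂C.nu ≠ ⊤ := by
    obtain ⟨Bs, hBs⟩ := hC.bdd j s hs
    obtain ⟨a, b, ha, hab⟩ := hC.ubd
    have hle : ∀ z ∈ C.U, g z ≤ ENNReal.ofReal (2 + 2 * (|Bs| * (1 / a) ^ j) ^ 2) := by
      intro z hz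
      have hu := u_pos hC hz
      by_cases h' : z ∈ W'
      · rw [hgW z h']
        refine ENNReal.ofReal_le_ofReal ?_
        simp only [hdef]
        rw [div_le_iff₀ (by positivity)]
        have h1 : ‖F z ^ j‖ ≤ C.u z ^ j := by
          rw [norm_pow]
          exact pow_le_pow_left₀ (norm_nonneg _) (D.Fu z (D.sub h')) j
        have h2 : ‖ev s z‖ ≤ |Bs| * (1 / a) ^ j * C.u z ^ j := by
          have hsz : C.sz z ≤ 1 / a * C.u z := by
            rw [one_div, inv_mul_eq_div, le_div_iff₀ ha]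
            have := (hab z hz).1
            linarith
          calc ‖ev s z‖ ≤ Bs * C.sz z ^ j := hBs z
            _ ≤ |Bs| * C.sz z ^ j := mul_le_mul_of_nonneg_right (le_abs_self _)
                (pow_nonneg (hC.Xpos z hz).le _)
            _ ≤ |Bs| * (1 / a * C.u z) ^ j := by
                have := (hC.Xpos z hz).le
                gcongr
            _ = _ := by rw [mul_pow]; ring
        have h3 : ‖F z ^ j - ev s z‖ ≤ C.u z ^ j + |Bs| * (1 / a) ^ j * C.u z ^ j :=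
          (norm_sub_le _ _).trans (add_le_add h1 h2)
        have h4 : C.u z ^ (2 * j) = (C.u z ^ j) ^ 2 := by rw [← pow_mul, mul_comm]
        rw [h4]
        set K := |Bs| * (1 / a) ^ j with hK
        calc ‖F z ^ j - ev s z‖ ^ 2 ≤ (C.u z ^ j + K * C.u z ^ j) ^ 2 :=
              pow_le_pow_left₀ (norm_nonneg _) h3 2
          _ ≤ (2 + 2 * K ^ 2) * (C.u z ^ j) ^ 2 := by
              nlinarith [sq_nonneg (C.u z ^ j - K * C.u z ^ j)]
      · rw [hg0 z h']
        exact bot_le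
    have h5 : ∫⁻ z in {z | z ∈ C.U ∧ C.u z < 1}, g z ∂C.nu ≤
        ∫⁻ _ in {z | z ∈ C.U ∧ C.u z < 1}, ENNReal.ofReal (2 + 2 * (|Bs| * (1 / a) ^ j) ^ 2)
          ∂C.nu := setLIntegral_mono' (measS hC 1) fun z hz => hle z hz.1
    refine (h5.trans_lt ?_).ne
    rw [setLIntegral_const, hVOL C hC]
    exact ENNReal.mul_lt_top ENNReal.ofReal_lt_top ENNReal.ofReal_lt_top
  set I := ∫⁻ z in {z | z ∈ C.U ∧ C.u z < 1}, g z ∂C.nu with hI
  have hfac : (0 : ℝ) < C.m * (2 * j + C.m - 1).factorial := by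
    have h1 : (0 : ℝ) < C.m := by exact_mod_cast (by omega : 0 < C.m)
    have h2 : (0 : ℝ) < (2 * j + C.m - 1).factorial := by exact_mod_cast Nat.factorial_pos _
    positivity
  have hIle : I ≤ ENNReal.ofReal (δ / (C.m * (2 * j + C.m - 1).factorial)) := by
    have hk := key hC hSCA g hg hgh hfin
      (fun s => ENNReal.ofReal (s ^ (2 * j) * Real.exp (-s))) (by fun_prop)
    rw [one_dim C.m hm (2 * j)] at hk
    have hae : AEMeasurable (fun z => ENNReal.ofReal (C.u z ^ (2 * j) * Real.exp (-C.u z)) * g z)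
        (volume.restrict C.U) := by
      refine AEMeasurable.mul ?_ hg.aemeasurable
      exact ((((cont_u hC).pow _).mul (Real.continuous_exp.comp_continuousOn
        (cont_u hC).neg)).aemeasurable (measU C)).ennreal_ofReal
    rw [lint_nu (measU C) hae] at hk
    have h1 : ENNReal.ofReal (C.m * (2 * j + C.m - 1).factorial) * I ≤ ENNReal.ofReal δ := by
      rw [hI, ← hk]
      refine le_trans ?_ (ENNReal.ofReal_le_ofReal hδ)
      unfold nrm
      rw [ofReal_integral_eq_lintegral_ofReal hL.2 (Eventually.of_forall fun z => by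
        simp only [Pi.zero_apply]
        positivity)]
      refine setLIntegral_mono' (measU C) fun z hz => ?_
      have hu := u_pos hC hz
      by_cases h' : z ∈ W'
      · rw [hgW z h', ← ENNReal.ofReal_mul (by positivity), ← ENNReal.ofReal_mul
          (by simp only [hdef]; positivity)]
        refine ENNReal.ofReal_le_ofReal (le_of_eq ?_)
        have h2 : GG C W χ F j z - ev s z * ev C.J z = (F z ^ j - ev s z) * ev C.J z := by
          simp only [GG, if_pos (D.sub h'), D.χ1 z h', Complex.ofReal_one, one_mul]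
          ring
        change C.u z ^ (2 * j) * Real.exp (-C.u z) * h z * ‖ev C.J z‖ ^ 2 =
          ‖GG C W χ F j z - ev s z * ev C.J z‖ ^ 2 * Real.exp (-C.u z)
        rw [h2, norm_mul]
        simp only [hdef]
        field_simp
      · rw [hg0 z h', mul_zero, zero_mul]
        exact bot_le
    rw [ENNReal.ofReal_div_of_pos hfac, ENNReal.le_div_iff_mul_le]
    · rw [mul_comm]
      exact h1
    · left
      exact (ENNReal.ofReal_pos.2 hfac).ne'
    · left
      exact ENNReal.ofReal_ne_top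
  have hk := key hC hSCA g hg hgh hfin
    ((Set.Iio T).indicator (fun _ => (1 : ENNReal))) (measurable_const.indicator measurableSet_Iio)
  rw [one_dim' C.m hm hT] at hk
  have hSm : MeasurableSet {z | z ∈ W' ∧ C.u z < T} := by
    have : {z | z ∈ W' ∧ C.u z < T} = W' ∩ {z | z ∈ C.U ∧ C.u z < T} := by
      ext z
      simp only [Set.mem_inter_iff, Set.mem_ofPred_eq]
      constructor
      · rintro ⟨h1, h2⟩
        exact ⟨h1, hU' h1, h2⟩
      · rintro ⟨h1, _, h2⟩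
        exact ⟨h1, h2⟩
    rw [this]
    exact D.oW'.measurableSet.inter (measS hC T)
  have hae : AEMeasurable (fun z => (Set.Iio T).indicator (fun _ => (1 : ENNReal)) (C.u z) * g z)
      (volume.restrict C.U) := by
    refine AEMeasurable.mul ?_ hg.aemeasurable
    exact (measurable_const.indicator measurableSet_Iio).comp_aemeasurable
      ((cont_u hC).aemeasurable (measU C))
  rw [lint_nu (measU C) hae] at hk
  calc ∫⁻ z in {z | z ∈ W' ∧ C.u z < T}, ENNReal.ofReal (‖F z ^ j - ev s z‖ ^ 2) *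
      ENNReal.ofReal (‖ev C.J z‖ ^ 2) ≤
      ∫⁻ z in {z | z ∈ W' ∧ C.u z < T}, ENNReal.ofReal (T ^ (2 * j)) *
        ((Set.Iio T).indicator (fun _ => (1 : ENNReal)) (C.u z) * g z *
          ENNReal.ofReal (‖ev C.J z‖ ^ 2)) := by
        refine setLIntegral_mono' hSm fun z hz => ?_
        have hu := u_pos hC (hU' hz.1)
        have h1 : ENNReal.ofReal (‖F z ^ j - ev s z‖ ^ 2) ≤
            ENNReal.ofReal (T ^ (2 * j)) * ENNReal.ofReal (h z) := by
          rw [← ENNReal.ofReal_mul (by positivity)]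
          refine ENNReal.ofReal_le_ofReal ?_
          simp only [hdef]
          rw [← mul_div_assoc, le_div_iff₀ (by positivity), mul_comm]
          have := hz.2.le
          gcongr
        rw [Set.indicator_of_mem (show C.u z ∈ Set.Iio T from hz.2), one_mul, hgW z hz.1,
          ← mul_assoc]
        exact mul_le_mul_left h1 _
    _ ≤ ∫⁻ z in C.U, ENNReal.ofReal (T ^ (2 * j)) *
        ((Set.Iio T).indicator (fun _ => (1 : ENNReal)) (C.u z) * g z *
          ENNReal.ofReal (‖ev C.J z‖ ^ 2)) := lintegral_mono_set fun z hz => hU' hz.1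
    _ = ENNReal.ofReal (T ^ (2 * j)) * (ENNReal.ofReal (T ^ C.m) * I) := by
        rw [lintegral_const_mul' _ _ ENNReal.ofReal_ne_top, hk]
    _ ≤ ENNReal.ofReal (T ^ (2 * j)) * (ENNReal.ofReal (T ^ C.m) *
        ENNReal.ofReal (δ / (C.m * (2 * j + C.m - 1).factorial))) := by gcongr
    _ = _ := by
        rw [← ENNReal.ofReal_mul (by positivity), ← ENNReal.ofReal_mul (by positivity)]

private theorem e_sup (hSUP : StSUP) (D : Dat C W W' χ F B c) (j : ℕ)
    (s : MvPolynomial (Fin C.m) ℂ) {z₀ : Fin C.m → ℂ} {r T j₀ : ℝ} (hr : 0 < r)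
    (hball : Metric.ball z₀ r ⊆ {z | z ∈ W' ∧ C.u z < T}) (hj₀ : 0 < j₀)
    (hJ : ∀ z ∈ Metric.ball z₀ r, j₀ ≤ ‖ev C.J z‖ ^ 2) {E : ℝ} (hE : 0 ≤ E)
    (hI : ∫⁻ z in {z | z ∈ W' ∧ C.u z < T}, ENNReal.ofReal (‖F z ^ j - ev s z‖ ^ 2) *
      ENNReal.ofReal (‖ev C.J z‖ ^ 2) ≤ ENNReal.ofReal E) :
    (Real.pi * r ^ 2) ^ C.m * ‖F z₀ ^ j - ev s z₀‖ ^ 2 ≤ E / j₀ := by
  have hbW : Metric.ball z₀ r ⊆ W := fun z hz => D.sub (hball hz).1
  have hd : DifferentiableOn ℂ (fun z => F z ^ j - ev s z) (Metric.ball z₀ r) :=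
    ((D.Fd.mono hbW).pow j).sub (ev_dif s).differentiableOn
  have hm : AEStronglyMeasurable (fun z => ‖F z ^ j - ev s z‖ ^ 2)
      (volume.restrict (Metric.ball z₀ r)) :=
    (hd.continuousOn.norm.pow 2).aestronglyMeasurable measurableSet_ball
  have hl : ∫⁻ z in Metric.ball z₀ r, ENNReal.ofReal (‖F z ^ j - ev s z‖ ^ 2) ≤
      ENNReal.ofReal (E / j₀) := by
    calc ∫⁻ z in Metric.ball z₀ r, ENNReal.ofReal (‖F z ^ j - ev s z‖ ^ 2) ≤
        ∫⁻ z in Metric.ball z₀ r, ENNReal.ofReal (1 / j₀) *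
          (ENNReal.ofReal (‖F z ^ j - ev s z‖ ^ 2) * ENNReal.ofReal (‖ev C.J z‖ ^ 2)) := by
          refine setLIntegral_mono' measurableSet_ball fun z hz => ?_
          rw [← ENNReal.ofReal_mul (by positivity), ← ENNReal.ofReal_mul (by positivity)]
          refine ENNReal.ofReal_le_ofReal ?_
          rw [one_div, inv_mul_eq_div, le_div_iff₀ hj₀]
          exact mul_le_mul_of_nonneg_left (hJ z hz) (by positivity)
      _ = ENNReal.ofReal (1 / j₀) * ∫⁻ z in Metric.ball z₀ r,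
          ENNReal.ofReal (‖F z ^ j - ev s z‖ ^ 2) * ENNReal.ofReal (‖ev C.J z‖ ^ 2) :=
          lintegral_const_mul' _ _ ENNReal.ofReal_ne_top
      _ ≤ ENNReal.ofReal (1 / j₀) * ENNReal.ofReal E := by
          gcongr
          exact (lintegral_mono_set hball).trans hI
      _ = _ := by
          rw [← ENNReal.ofReal_mul (by positivity)]
          congr 1
          ring
  have hint : IntegrableOn (fun z => ‖F z ^ j - ev s z‖ ^ 2) (Metric.ball z₀ r) := by
    refine ⟨hm, ?_⟩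
    rw [hasFiniteIntegral_iff_ofReal (Eventually.of_forall fun z => by
      simp only [Pi.zero_apply]
      positivity)]
    exact hl.trans_lt ENNReal.ofReal_lt_top
  have h1 := (hSUP C.m z₀ r hr (fun z => F z ^ j - ev s z) hd hint).2
  refine h1.trans ?_
  have h2 : ENNReal.ofReal (∫ z in Metric.ball z₀ r, ‖F z ^ j - ev s z‖ ^ 2) ≤
      ENNReal.ofReal (E / j₀) := by
    rw [ofReal_integral_eq_lintegral_ofReal hint (Eventually.of_forall fun z => by
      simp only [Pi.zero_apply]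
      positivity)]
    exact hl
  exact (ENNReal.ofReal_le_ofReal_iff (by positivity)).1 h2

private theorem tri (a b : ℂ) {t : ℝ} (ht : 0 < t) :
    ‖b‖ ^ 2 ≤ (1 + t) * ‖a‖ ^ 2 + (1 + 1 / t) * ‖a - b‖ ^ 2 := by
  have h1 : ‖b‖ ≤ ‖a‖ + ‖a - b‖ := by
    have := norm_sub_norm_le b a
    rw [norm_sub_rev] at this
    linarith
  have h2 : ‖b‖ ^ 2 ≤ (‖a‖ + ‖a - b‖) ^ 2 := pow_le_pow_left₀ (norm_nonneg _) h1 2
  refine h2.trans ?_
  have h3 : (1 + t) * ‖a‖ ^ 2 + (1 + 1 / t) * ‖a - b‖ ^ 2 - (‖a‖ + ‖a - b‖) ^ 2 =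
      (t * ‖a‖ - ‖a - b‖) ^ 2 / t := by
    field_simp
    ring
  have h4 : 0 ≤ (t * ‖a‖ - ‖a - b‖) ^ 2 / t := by positivity
  linarith

private theorem nrm_tri {U : Set (Fin C.m → ℂ)} {ψ : (Fin C.m → ℂ) → ℝ}
    {G S : (Fin C.m → ℂ) → ℂ} (h1 : L2 U ψ G) (h2 : L2 U ψ S)
    (h3 : L2 U ψ (fun z => G z - S z)) {t : ℝ} (ht : 0 < t) :
    nrm U ψ S ≤ (1 + t) * nrm U ψ G + (1 + 1 / t) * nrm U ψ (fun z => G z - S z) := by
  unfold nrm
  rw [← integral_const_mul, ← integral_const_mul, ← integral_add (h1.2.const_mul _)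
    (h3.2.const_mul _)]
  refine integral_mono h2.2 ((h1.2.const_mul _).add (h3.2.const_mul _)) fun z => ?_
  have h4 := mul_le_mul_of_nonneg_right (tri (G z) (S z) ht) (Real.exp_pos (-ψ z)).le
  calc _ ≤ _ := h4
    _ = _ := by ring

private theorem per_j (hC : Good C) (hHOR : StHOR) (hSCA : StSCA) (hVOL : StVOL) (hMOM : StMOM)
    (hSUP : StSUP) (hCAL : StCAL) (D : Dat C W W' χ F B c) {z₀ : Fin C.m → ℂ} {r T j₀ t : ℝ}
    (hr : 0 < r) (hT : 0 < T) (ht : 0 < t)
    (hball : Metric.ball z₀ r ⊆ {z | z ∈ W' ∧ C.u z < T}) (hj₀ : 0 < j₀)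
    (hJ : ∀ z ∈ Metric.ball z₀ r, j₀ ≤ ‖ev C.J z‖ ^ 2) {j : ℕ} (hj : 1 ≤ j) {A : ℝ} (hA : 0 ≤ A)
    (hlap : ∫⁻ z in {z | z ∈ W ∧ C.u z < 1}, ENNReal.ofReal ((‖F z‖ / C.u z) ^ (2 * j)) ∂C.nu ≤
      ENNReal.ofReal A) {K : ℝ}
    (hK : K = B * (C.m * (C.rd * (Real.pi / 2) ^ C.m / C.m.factorial))) :
    ∃ s ∈ C.R j, nrm C.U C.u (fun z => ev s z * ev C.J z) ≤
      (1 + t) * (C.m * (2 * j + C.m - 1).factorial * A) +
        (1 + 1 / t) * (K * c ^ (2 * j) * (2 * j + C.m - 1).factorial) ∧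
      (Real.pi * r ^ 2) ^ C.m * ‖F z₀ ^ j - ev s z₀‖ ^ 2 ≤
        T ^ (2 * j) * (T ^ C.m * (K * c ^ (2 * j) / C.m)) / j₀ := by
  have hm := m_two hC
  have hB := D.B0
  have hc := D.c0
  have hK0 : 0 ≤ K := by
    rw [hK]
    positivity
  obtain ⟨i1, e1⟩ := kap_int hC hMOM D hj
  rw [← hK] at e1
  obtain ⟨s, hs, hL, hn⟩ := hHOR C hC j (GG C W χ F j) (kap C W W' F B j) (GG_smooth D j)
    (fun a ha z hz => GG_hom hC D j a (fun h => by simp [h] at ha) z hz)
    (by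
      obtain ⟨a, b, ha, hab⟩ := hC.ubd
      refine ⟨b ^ (2 * j), 2 * j, fun z hz => ?_⟩
      have hu := u_pos hC hz
      have hsz := (hC.Xpos z hz).le
      have h1 := pow_le_pow_left₀ (norm_nonneg _) (GG_le hC D j z hz) 2
      refine h1.trans ?_
      have h2 : C.u z ^ (2 * j) ≤ (b * C.sz z) ^ (2 * j) := pow_le_pow_left₀ hu.le (hab z hz).2 _
      have h3 : (0 : ℝ) ≤ b ^ (2 * j) := by
        rw [pow_mul]
        positivity
      calc (C.u z ^ j * ‖ev C.J z‖) ^ 2 = C.u z ^ (2 * j) * ‖ev C.J z‖ ^ 2 := by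
            rw [mul_pow, ← pow_mul, mul_comm j 2]
        _ ≤ (b * C.sz z) ^ (2 * j) * ‖ev C.J z‖ ^ 2 := by gcongr
        _ = b ^ (2 * j) * C.sz z ^ (2 * j) * ‖ev C.J z‖ ^ 2 := by rw [mul_pow]
        _ ≤ b ^ (2 * j) * (1 + C.sz z ^ (2 * j)) * ‖ev C.J z‖ ^ 2 := by
            gcongr
            linarith)
    (fun z hz => ⟨kap_nn hC D j z, fun ξ => GG_db hC hCAL D j z hz ξ⟩) i1
  have hn1 : nrm C.U C.u (fun z => GG C W χ F j z - ev s z * ev C.J z) ≤
      K * c ^ (2 * j) * (2 * j + C.m - 1).factorial := hn.trans e1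
  have hS : L2 C.U C.u (fun z => ev s z * ev C.J z) := (hMOM C hC).2.2.2 j s hs
  refine ⟨s, hs, ?_, ?_⟩
  · have h1 := nrm_tri (GG_L2 hC hMOM D j) hS hL ht
    have h2 := nrm_GG hC hSCA hMOM D j hA hlap
    calc _ ≤ _ := h1
      _ ≤ _ := by gcongr
  · have h1 := e_bound hC hSCA hVOL D j hs hL hn1 hT
    have hm0 : (0 : ℝ) < C.m := by exact_mod_cast (by omega : 0 < C.m)
    have hf0 : (0 : ℝ) < (2 * j + C.m - 1).factorial := by exact_mod_cast Nat.factorial_pos _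
    have h2 : K * c ^ (2 * j) * (2 * j + C.m - 1).factorial /
        (C.m * (2 * j + C.m - 1).factorial) = K * c ^ (2 * j) / C.m := by
      field_simp
    rw [h2] at h1
    exact e_sup hSUP D j s hr hball hj₀ hJ (by positivity) h1

end dat

theorem hPEA (hLAP : StLAP) (hHOR : StHOR) (hSCA : StSCA) (hVOL : StVOL) (hMOM : StMOM)
    (hSUP : StSUP) (hCAL : StCAL) : StPEA := by
  intro C hC z₀ hz₀ ε hε
  obtain ⟨W, W', χ, F, B, c, oW, oW', hzW', sub, subU, conW, conW', χs, χb, χh, χ1, χ0, Fd, Fh,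
    F0, Fu, c0, c1, Fc, B0, χd, lap⟩ := hLAP C hC z₀ hz₀ (ε / 3) (by positivity)
  have D : Dat C W W' χ F B c := ⟨oW, oW', sub, subU, conW, conW', χs, χb, χh, χ1, χ0, Fd, Fh,
    Fu, c0, c1, Fc, B0, χd⟩
  have hm := m_two hC
  have hm0 : (0 : ℝ) < C.m := by exact_mod_cast (by omega : 0 < C.m)
  have hu0 := u_pos hC hz₀
  set K : ℝ := B * (C.m * (C.rd * (Real.pi / 2) ^ C.m / C.m.factorial)) with hK
  have hK0 : 0 ≤ K := by positivity
  set t : ℝ := ε / 3 / (1 + ε / 3) with ht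
  have ht0 : 0 < t := by positivity
  have ht1 : (1 + t) * (1 + ε / 3) = 1 + 2 * ε / 3 := by
    rw [ht]
    field_simp
    ring
  set τ : ℝ := (1 + 1 / c) / 2 with hτ
  have hτ1 : 1 < τ := by
    have : 1 < 1 / c := by rw [lt_div_iff₀ c0]; linarith
    rw [hτ]
    linarith
  set q : ℝ := τ * c with hq
  have hq1 : q < 1 := by
    have : q = (c + 1) / 2 := by
      rw [hq, hτ]
      field_simp
    rw [this]
    linarith
  have hq0 : 0 ≤ q := by positivity
  set T : ℝ := τ * C.u z₀ with hT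
  have hT0 : 0 < T := by positivity
  set j₀ : ℝ := ‖ev C.J z₀‖ ^ 2 / 2 with hj₀
  have hJ0 : 0 < ‖ev C.J z₀‖ := norm_pos_iff.2 (hC.J0 z₀ hz₀)
  have hj₀0 : 0 < j₀ := by positivity
  obtain ⟨r, hr, hball⟩ : ∃ r > 0, ∀ z ∈ Metric.ball z₀ r, (z ∈ W' ∧ C.u z < T) ∧
      j₀ ≤ ‖ev C.J z‖ ^ 2 := by
    have h1 : ∀ᶠ z in 𝓝 z₀, z ∈ W' := oW'.mem_nhds hzW'
    have h2 : ∀ᶠ z in 𝓝 z₀, C.u z < T := by
      have h3 : ContinuousAt C.u z₀ := (cont_u hC).continuousAt ((isOpen_U C).mem_nhds hz₀)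
      refine h3.eventually_lt_const ?_
      rw [hT]
      nlinarith
    have h3 : ∀ᶠ z in 𝓝 z₀, j₀ ≤ ‖ev C.J z‖ ^ 2 := by
      have h4 : ContinuousAt (fun z => ‖ev C.J z‖ ^ 2) z₀ :=
        ((cont_ev C.J).norm.pow 2).continuousAt
      refine (h4.eventually_const_lt (u := j₀) ?_).mono fun z hz => hz.le
      rw [hj₀]
      have : 0 < ‖ev C.J z₀‖ ^ 2 := by positivity
      linarith
    exact Metric.eventually_nhds_iff_ball.1 ((h1.and h2).and h3)
  set E₁ : ℝ := T ^ C.m * (K / C.m) / j₀ / (Real.pi * r ^ 2) ^ C.m with hE₁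
  have hE₁0 : 0 ≤ E₁ := by positivity
  have hpi : 0 < (Real.pi / 2) ^ C.m := by positivity
  have hlim : ∀ᶠ j : ℕ in atTop, (1 + t) * (1 + ε / 3) * (Real.pi / 2) ^ C.m +
      (1 + 1 / t) * K * ((j : ℝ) ^ (C.m - 1) * (c ^ 2) ^ j) <
      (1 + ε) * (Real.pi / 2) ^ C.m * (1 - Real.sqrt E₁ * q ^ j) ^ 2 := by
    have l1 : Tendsto (fun j : ℕ => (1 + t) * (1 + ε / 3) * (Real.pi / 2) ^ C.m +
        (1 + 1 / t) * K * ((j : ℝ) ^ (C.m - 1) * (c ^ 2) ^ j)) atTop
        (𝓝 ((1 + t) * (1 + ε / 3) * (Real.pi / 2) ^ C.m + (1 + 1 / t) * K * 0)) := by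
      refine tendsto_const_nhds.add (Tendsto.const_mul _ ?_)
      refine tendsto_pow_const_mul_const_pow_of_abs_lt_one (C.m - 1) ?_
      rw [abs_of_nonneg (by positivity)]
      nlinarith
    have l2 : Tendsto (fun j : ℕ => (1 + ε) * (Real.pi / 2) ^ C.m *
        (1 - Real.sqrt E₁ * q ^ j) ^ 2) atTop
        (𝓝 ((1 + ε) * (Real.pi / 2) ^ C.m * (1 - Real.sqrt E₁ * 0) ^ 2)) := by
      refine Tendsto.const_mul _ (Tendsto.pow (tendsto_const_nhds.sub (Tendsto.const_mul _ ?_)) 2)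
      exact tendsto_pow_atTop_nhds_zero_of_lt_one hq0 hq1
    refine l1.eventually_lt l2 ?_
    rw [mul_zero, add_zero, mul_zero, sub_zero, one_pow, mul_one, ht1]
    have : 1 + 2 * ε / 3 < 1 + ε := by linarith
    gcongr
  have hlim2 : ∀ᶠ j : ℕ in atTop, Real.sqrt E₁ * q ^ j < 1 := by
    have l2 : Tendsto (fun j : ℕ => Real.sqrt E₁ * q ^ j) atTop (𝓝 (Real.sqrt E₁ * 0)) :=
      Tendsto.const_mul _ (tendsto_pow_atTop_nhds_zero_of_lt_one hq0 hq1)
    rw [mul_zero] at l2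
    exact l2.eventually_lt_const one_pos
  filter_upwards [lap, hlim, hlim2, eventually_ge_atTop 1] with j hj1 hj2 hj3 hj4
  have hjp : (0 : ℝ) < j := by exact_mod_cast hj4
  obtain ⟨s, hs, hn, hv⟩ := per_j hC hHOR hSCA hVOL hMOM hSUP hCAL D hr hT0 ht0
    (fun z hz => (hball z hz).1) hj₀0 (fun z hz => (hball z hz).2) hj4
    (by positivity : (0 : ℝ) ≤ (1 + ε / 3) * (Real.pi / 2) ^ C.m / (C.m * (j : ℝ) ^ (C.m - 1)))
    hj1 hK
  have hf0 : (0 : ℝ) < (2 * j + C.m - 1).factorial := by exact_mod_cast Nat.factorial_pos _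
  -- the value at the point
  have hv1 : ‖F z₀ ^ j - ev s z₀‖ ^ 2 ≤ E₁ * (q ^ j * C.u z₀ ^ j) ^ 2 := by
    have hpr : 0 < (Real.pi * r ^ 2) ^ C.m := by positivity
    rw [← mul_le_mul_iff_right₀ hpr]
    refine hv.trans (le_of_eq ?_)
    rw [hE₁, hq, hT]
    have e1 : (τ * C.u z₀) ^ (2 * j) * c ^ (2 * j) = ((τ * c) ^ j * C.u z₀ ^ j) ^ 2 := by
      rw [← mul_pow, ← mul_pow, ← pow_mul, mul_comm j 2]
      congr 1
      ring
    rw [← e1]
    field_simp
  have hv2 : ‖F z₀ ^ j - ev s z₀‖ ≤ Real.sqrt E₁ * q ^ j * C.u z₀ ^ j := by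
    have h1 := Real.sqrt_le_sqrt hv1
    rw [Real.sqrt_sq (norm_nonneg _), Real.sqrt_mul hE₁0, Real.sqrt_sq (by positivity)] at h1
    linarith
  have hv3 : (1 - Real.sqrt E₁ * q ^ j) * C.u z₀ ^ j ≤ ‖ev s z₀‖ := by
    have h1 : ‖F z₀ ^ j‖ = C.u z₀ ^ j := by rw [norm_pow, F0]
    have h2 := norm_sub_norm_le (F z₀ ^ j) (F z₀ ^ j - ev s z₀)
    rw [sub_sub_cancel, h1] at h2
    linarith
  have hup : 0 < C.u z₀ ^ j := by positivity
  have hpos : 0 < (1 - Real.sqrt E₁ * q ^ j) * C.u z₀ ^ j := mul_pos (by linarith) hup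
  refine ⟨s, hs, norm_pos_iff.1 (hpos.trans_le hv3), ?_⟩
  have hv4 : (1 - Real.sqrt E₁ * q ^ j) ^ 2 ≤ ‖ev s z₀‖ ^ 2 / C.u z₀ ^ (2 * j) := by
    rw [le_div_iff₀ (by positivity), mul_comm 2 j, pow_mul, ← mul_pow]
    exact pow_le_pow_left₀ hpos.le hv3 2
  calc nrm C.U C.u (fun z => ev s z * ev C.J z) * (j : ℝ) ^ (C.m - 1) ≤
      ((1 + t) * (C.m * (2 * j + C.m - 1).factorial * ((1 + ε / 3) * (Real.pi / 2) ^ C.m /
        (C.m * (j : ℝ) ^ (C.m - 1)))) +
        (1 + 1 / t) * (K * c ^ (2 * j) * (2 * j + C.m - 1).factorial)) *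
          (j : ℝ) ^ (C.m - 1) := by gcongr
    _ = ((1 + t) * (1 + ε / 3) * (Real.pi / 2) ^ C.m +
      (1 + 1 / t) * K * ((j : ℝ) ^ (C.m - 1) * (c ^ 2) ^ j)) * (2 * j + C.m - 1).factorial := by
        rw [← pow_mul c 2 j]
        field_simp
    _ ≤ ((1 + ε) * (Real.pi / 2) ^ C.m * (1 - Real.sqrt E₁ * q ^ j) ^ 2) *
      (2 * j + C.m - 1).factorial := by gcongr
    _ ≤ ((1 + ε) * (Real.pi / 2) ^ C.m * (‖ev s z₀‖ ^ 2 / C.u z₀ ^ (2 * j))) *
      (2 * j + C.m - 1).factorial := by gcongr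
    _ = _ := by ring

end Pool.Agent.Helper63.KP
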